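import Mathlib

set_option autoImplicit false

namespace Pool.Agent.H.MP_846a4c_an

open Set

abbrev Cfg := ℤ → ZMod 3

def LG : Type := Cfg × ℤ

instance : TopologicalSpace LG := inferInstanceAs (TopologicalSpace (Cfg × ℤ))
instance : T2Space LG := inferInstanceAs (T2Space (Cfg × ℤ))
instance : LocallyCompactSpace LG := inferInstanceAs (LocallyCompactSpace (Cfg × ℤ))

def mk (c : Cfg) (p : ℤ) : LG := (c, p)
def cf (x : LG) : Cfg := Prod.fst x
def ps (x : LG) : ℤ := Prod.snd x

@[simp] theorem cf_mk (c : Cfg) (p : ℤ) : cf (mk c p) = c := rfl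
@[simp] theorem ps_mk (c : Cfg) (p : ℤ) : ps (mk c p) = p := rfl
theorem mk_eta (x : LG) : mk (cf x) (ps x) = x := rfl

theorem LG.ext {x y : LG} (h1 : cf x = cf y) (h2 : ps x = ps y) : x = y := Prod.ext h1 h2

instance : Group LG where
  mul g x := mk (fun q => cf x q + cf g (q - ps x)) (ps x + ps g)
  one := mk 0 0
  inv g := mk (fun q => - cf g (q + ps g)) (- ps g)
  mul_assoc a b c := by
    apply LG.ext
    · funext q
      show cf c q + (cf b (q - ps c) + cf a (q - ps c - ps b)) =
        (cf c q + cf b (q - ps c)) + cf a (q - (ps c + ps b))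
      rw [sub_add_eq_sub_sub, add_assoc]
    · show ps c + (ps b + ps a) = ps c + ps b + ps a
      ring
  one_mul a := by
    apply LG.ext
    · funext q
      show cf a q + 0 = cf a q
      simp
    · show ps a + 0 = ps a
      simp
  mul_one a := by
    apply LG.ext
    · funext q
      show 0 + cf a (q - 0) = cf a q
      simp
    · show 0 + ps a = ps a
      simp
  inv_mul_cancel a := by
    apply LG.ext
    · funext q
      show cf a q + - cf a (q - ps a + ps a) = 0
      simp
    · show ps a + - ps a = 0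
      simp

theorem cf_mul (g x : LG) (q : ℤ) : cf (g * x) q = cf x q + cf g (q - ps x) := rfl
theorem ps_mul (g x : LG) : ps (g * x) = ps x + ps g := rfl
theorem cf_inv (g : LG) (q : ℤ) : cf g⁻¹ q = - cf g (q + ps g) := rfl
theorem ps_inv (g : LG) : ps g⁻¹ = - ps g := rfl

theorem cont_cf : Continuous cf := continuous_fst
theorem cont_ps : Continuous ps := continuous_snd

theorem cont_mk {X : Type} [TopologicalSpace X] {f : X → Cfg} {h : X → ℤ} (hf : Continuous f)
    (hh : Continuous h) : Continuous fun x => mk (f x) (h x) := hf.prodMk hh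

theorem cont_ev : Continuous fun z : Cfg × ℤ => z.1 z.2 := by
  rw [continuous_prod_of_discrete_right]
  intro b
  exact continuous_apply b

theorem cont_ev' {X : Type} [TopologicalSpace X] {f : X → Cfg} {h : X → ℤ} (hf : Continuous f)
    (hh : Continuous h) : Continuous fun x => f x (h x) := cont_ev.comp (hf.prodMk hh)

instance : IsTopologicalGroup LG where
  continuous_mul := by
    refine cont_mk (f := fun z : LG × LG => fun q => cf z.2 q + cf z.1 (q - ps z.2))
      (h := fun z : LG × LG => ps z.2 + ps z.1) ?_ ?_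
    · refine continuous_pi fun q => ?_
      exact (cont_ev' (cont_cf.comp continuous_snd) continuous_const).add
        (cont_ev' (cont_cf.comp continuous_fst) (continuous_const.sub (cont_ps.comp continuous_snd)))
    · exact (cont_ps.comp continuous_snd).add (cont_ps.comp continuous_fst)
  continuous_inv := by
    refine cont_mk (f := fun g : LG => fun q => - cf g (q + ps g)) (h := fun g : LG => - ps g) ?_ ?_
    · refine continuous_pi fun q => ?_
      exact (cont_ev' cont_cf (continuous_const.add cont_ps)).neg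
    · exact cont_ps.neg

instance : MeasurableSpace LG := borel LG
instance : BorelSpace LG := ⟨rfl⟩

def b (j : ℕ) : ℤ := 2 * 2 ^ j

def Lamp (q : ℤ) : Prop := ∃ j, b j = |q|

def K (c : Cfg) : Prop :=
  ∀ q, (c q = 0 ∨ c q = 1) ∧ (Lamp q → c q = 1 ∨ c (-q) = 1) ∧ (¬ Lamp q → c q = 0)

def X (c : Cfg) (p : ℤ) : Prop :=
  K c ∧ ∀ q, 0 < q → (c (-q) = 1 → p ≤ q) ∧ (c q = 1 → -q ≤ p)

def Y (c : Cfg) (p : ℤ) : Prop :=
  (X c p ∧ ¬ (p < 0 ∧ c p = 1 ∧ c (-p) = 1)) ∨
    (X c (p - 1) ∧ 0 < p - 1 ∧ c (-(p - 1)) = 1 ∧ c (p - 1) = 0)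

def A : Set LG := {x | X (cf x) (ps x)}
def B : Set LG := {x | Y (cf x) (ps x)}

theorem b_pos (j : ℕ) : 0 < b j := by unfold b; positivity

theorem lamp_neg (q : ℤ) : Lamp (-q) ↔ Lamp q := by simp [Lamp]

theorem meas_ev (f : ℤ → ℤ) (v : ZMod 3) : Measurable fun x : LG => cf x (f (ps x)) = v := by
  rw [← measurableSet_setOfPred]
  have h : Continuous fun x : LG => cf x (f (ps x)) :=
    cont_ev' cont_cf (continuous_of_discreteTopology.comp cont_ps)
  exact (isClosed_eq h continuous_const).measurableSet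

theorem meas_ps (φ : ℤ → Prop) : Measurable fun x : LG => φ (ps x) :=
  (measurable_of_countable φ).comp cont_ps.measurable

theorem meas_K : Measurable fun x : LG => K (cf x) := by
  refine Measurable.forall fun q => ?_
  exact ((meas_ev (fun _ => q) 0).or (meas_ev (fun _ => q) 1)).and
    ((measurable_const.imp ((meas_ev (fun _ => q) 1).or (meas_ev (fun _ => -q) 1))).and
      (measurable_const.imp (meas_ev (fun _ => q) 0)))

theorem meas_X (f : ℤ → ℤ) : Measurable fun x : LG => X (cf x) (f (ps x)) := by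
  refine meas_K.and (Measurable.forall fun q => measurable_const.imp ?_)
  exact ((meas_ev (fun _ => -q) 1).imp (meas_ps fun p => f p ≤ q)).and
    ((meas_ev (fun _ => q) 1).imp (meas_ps fun p => -q ≤ f p))

theorem K_sub {c c' : Cfg} {p : ℤ} (h : K c) (h1 : c p = 1) (h2 : c (-p) = 1)
    (e1 : c' p = 0) (e2 : ∀ q, q ≠ p → c' q = c q) : K c' := by
  have hL : Lamp p := by
    by_contra hn
    have := (h p).2.2 hn
    rw [h1] at this
    exact absurd this (by decide)
  have hp : -p ≠ p := by
    obtain ⟨j, hj⟩ := hL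
    have := b_pos j
    intro h0
    have : p = 0 := by omega
    subst this
    simp at hj
    omega
  intro q
  by_cases hq : q = p
  · subst hq
    exact ⟨Or.inl e1, fun _ => Or.inr (by rw [e2 _ hp, h2]), fun _ => e1⟩
  · rw [e2 q hq]
    refine ⟨(h q).1, fun hl => ?_, (h q).2.2⟩
    by_cases hq' : -q = p
    · left
      rw [← h2, ← hq', neg_neg]
    · rw [e2 _ hq']
      exact (h q).2.1 hl

theorem K_add {c c' : Cfg} {p : ℤ} (h : K c) (h2 : c (-p) = 1)
    (e1 : c' p = 1) (e2 : ∀ q, q ≠ p → c' q = c q) : K c' := by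
  have hL : Lamp p := by
    by_contra hn
    have := (h (-p)).2.2 (by rwa [lamp_neg])
    rw [h2] at this
    exact absurd this (by decide)
  intro q
  by_cases hq : q = p
  · subst hq
    exact ⟨Or.inr e1, fun _ => Or.inl e1, fun hn => absurd hL hn⟩
  · rw [e2 q hq]
    refine ⟨(h q).1, fun hl => ?_, (h q).2.2⟩
    by_cases hq' : -q = p
    · right
      rw [hq', e1]
    · rw [e2 _ hq']
      exact (h q).2.1 hl

theorem X_change {c c' : Cfg} {p : ℤ} (h : X c p) (hK : K c') (e2 : ∀ q, q ≠ p → c' q = c q) :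
    X c' p := by
  refine ⟨hK, fun q hq => ⟨fun h1 => ?_, fun h1 => ?_⟩⟩
  · by_cases hq' : -q = p
    · omega
    · rw [e2 _ hq'] at h1
      exact (h.2 q hq).1 h1
  · by_cases hq' : q = p
    · omega
    · rw [e2 _ hq'] at h1
      exact (h.2 q hq).2 h1

theorem K_zero {c : Cfg} (h : K c) : c 0 = 0 := by
  refine (h 0).2.2 ?_
  rintro ⟨j, hj⟩
  have := b_pos j
  simp at hj
  omega

theorem X_succ {c : Cfg} {p : ℤ} (h : X c p) (hn : ¬ (0 < p ∧ c (-p) = 1)) : X c (p + 1) := by
  refine ⟨h.1, fun q hq => ⟨fun h1 => ?_, fun h1 => ?_⟩⟩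
  · have := (h.2 q hq).1 h1
    by_cases hpq : p = q
    · subst hpq
      exact absurd ⟨hq, h1⟩ hn
    · omega
  · have := (h.2 q hq).2 h1
    omega

theorem X_pred {c : Cfg} {p : ℤ} (h : X c p) (hn : ¬ (p < 0 ∧ c (-p) = 1)) : X c (p - 1) := by
  refine ⟨h.1, fun q hq => ⟨fun h1 => ?_, fun h1 => ?_⟩⟩
  · have := (h.2 q hq).1 h1
    omega
  · have := (h.2 q hq).2 h1
    by_cases hpq : p = -q
    · subst hpq
      exact absurd ⟨by omega, by simpa using h1⟩ hn
    · omega

theorem not_X_succ {c : Cfg} {p : ℤ} (hp : 0 < p) (h1 : c (-p) = 1) : ¬ X c (p + 1) := by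
  intro h
  have := (h.2 p hp).1 h1
  omega

theorem not_X_pred {c : Cfg} {p : ℤ} (hp : p < 0) (h1 : c (-p) = 1) : ¬ X c (p - 1) := by
  intro h
  have := (h.2 (-p) (by omega)).2 h1
  omega

end Pool.Agent.H.MP_846a4c_an
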