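import Pool.Agent.H.MP_846a4c_an.A

set_option autoImplicit false

namespace Pool.Agent.H.MP_846a4c_an

open Set

def dl : Cfg := fun q => if q = 0 then -1 else 0

def S0 : Set LG := {x | X (cf x) (ps x) ∧ ¬ (ps x < 0 ∧ cf x (ps x) = 1 ∧ cf x (- ps x) = 1)}
def S1 : Set LG := {x | X (cf x) (ps x) ∧ (ps x < 0 ∧ cf x (ps x) = 1 ∧ cf x (- ps x) = 1)}
def S2 : Set LG := {x | X (cf x) (ps x) ∧ ¬ (0 < ps x ∧ cf x (- ps x) = 1)}
def S3 : Set LG := {x | X (cf x) (ps x) ∧ 0 < ps x ∧ cf x (- ps x) = 1 ∧ cf x (ps x) = 0}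
def S4 : Set LG := {x | X (cf x) (ps x) ∧ 0 < ps x ∧ cf x (- ps x) = 1 ∧ cf x (ps x) = 1}
def T1 : Set LG := {x | X (cf x) (ps x) ∧ (ps x < 0 ∧ cf x (ps x) = 0 ∧ cf x (- ps x) = 1)}
def T2 : Set LG := {x | X (cf x) (ps x - 1) ∧ ¬ (0 < ps x - 1 ∧ cf x (- (ps x - 1)) = 1)}
def T3 : Set LG :=
  {x | X (cf x) (ps x - 1) ∧ 0 < ps x - 1 ∧ cf x (- (ps x - 1)) = 1 ∧ cf x (ps x - 1) = 0}

theorem img_of (g : LG) (S T : Set LG) (h1 : ∀ x ∈ S, g * x ∈ T) (h2 : ∀ y ∈ T, g⁻¹ * y ∈ S) :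
    (fun x => g * x) '' S = T := by
  ext y
  constructor
  · rintro ⟨x, hx, rfl⟩
    exact h1 x hx
  · intro hy
    exact ⟨g⁻¹ * y, h2 y hy, by simp⟩

theorem cf_mv (a : ℤ) (x : LG) : cf (mk 0 a * x) = cf x := by
  funext q
  simp [cf_mul]

theorem cf_mv' (a : ℤ) (x : LG) : cf ((mk 0 a)⁻¹ * x) = cf x := by
  funext q
  simp [cf_mul, cf_inv]

theorem down (a : ℤ) (x : LG) (hX : X (cf x) (ps x)) (h1 : cf x (ps x) = 1)
    (h2 : cf x (- ps x) = 1) :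
    X (cf (mk dl a * x)) (ps x) ∧ cf (mk dl a * x) (ps x) = 0 ∧ cf (mk dl a * x) (- ps x) = 1 := by
  have e1 : cf (mk dl a * x) (ps x) = 0 := by simp [cf_mul, dl, h1]
  have e2 : ∀ q, q ≠ ps x → cf (mk dl a * x) q = cf x q := by
    intro q hq
    simp [cf_mul, dl, sub_eq_zero, hq]
  have hp : - ps x ≠ ps x := by
    intro h0
    have h3 : ps x = 0 := by omega
    rw [h3, K_zero hX.1] at h1
    exact absurd h1 (by decide)
  exact ⟨X_change hX (K_sub hX.1 h1 h2 e1 e2) e2, e1, by rw [e2 _ hp, h2]⟩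

theorem up (a : ℤ) (y : LG) (hX : X (cf y) (ps y - a)) (h1 : cf y (ps y - a) = 0)
    (h2 : cf y (- (ps y - a)) = 1) :
    X (cf ((mk dl a)⁻¹ * y)) (ps y - a) ∧ cf ((mk dl a)⁻¹ * y) (ps y - a) = 1 ∧
      cf ((mk dl a)⁻¹ * y) (- (ps y - a)) = 1 := by
  have e1 : cf ((mk dl a)⁻¹ * y) (ps y - a) = 1 := by simp [cf_mul, cf_inv, dl, h1]
  have e2 : ∀ q, q ≠ ps y - a → cf ((mk dl a)⁻¹ * y) q = cf y q := by
    intro q hq
    have : q - ps y + a ≠ 0 := by omega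
    simp [cf_mul, cf_inv, dl, this]
  have hp : - (ps y - a) ≠ ps y - a := by
    intro h0
    rw [h0, h1] at h2
    exact absurd h2 (by decide)
  exact ⟨X_change hX (K_add hX.1 h2 e1 e2) e2, e1, by rw [e2 _ hp, h2]⟩

theorem im1 : (fun x => mk dl 0 * x) '' S1 = T1 := by
  refine img_of _ _ _ (fun x hx => ?_) (fun y hy => ?_)
  · have := down 0 x hx.1 hx.2.2.1 hx.2.2.2
    simp only [T1, mem_ofPred_eq, ps_mul, ps_mk, add_zero]
    exact ⟨this.1, hx.2.1, this.2.1, this.2.2⟩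
  · have := up 0 y (by simpa using hy.1) (by simpa using hy.2.2.1) (by simpa using hy.2.2.2)
    simp only [S1, mem_ofPred_eq, ps_mul, ps_inv, ps_mk, add_zero, neg_zero]
    simp only [sub_zero] at this
    exact ⟨this.1, hy.2.1, this.2.1, this.2.2⟩

theorem im2 : (fun x => mk 0 1 * x) '' S2 = T2 := by
  refine img_of _ _ _ (fun x hx => ?_) (fun y hy => ?_)
  · simp only [T2, mem_ofPred_eq, ps_mul, ps_mk, cf_mv, add_sub_cancel_right]
    exact hx
  · simp only [S2, mem_ofPred_eq, ps_mul, ps_inv, ps_mk, cf_mv', ← sub_eq_add_neg]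
    exact hy

theorem im3 : (fun x => mk 0 1 * x) '' S3 = T3 := by
  refine img_of _ _ _ (fun x hx => ?_) (fun y hy => ?_)
  · simp only [T3, mem_ofPred_eq, ps_mul, ps_mk, cf_mv, add_sub_cancel_right]
    exact hx
  · simp only [S3, mem_ofPred_eq, ps_mul, ps_inv, ps_mk, cf_mv', ← sub_eq_add_neg]
    exact hy

theorem im4 : (fun x => mk dl 1 * x) '' S4 = T3 := by
  refine img_of _ _ _ (fun x hx => ?_) (fun y hy => ?_)
  · have := down 1 x hx.1 hx.2.2.2 hx.2.2.1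
    simp only [T3, mem_ofPred_eq, ps_mul, ps_mk, add_sub_cancel_right]
    exact ⟨this.1, hx.2.1, this.2.2, this.2.1⟩
  · have := up 1 y hy.1 hy.2.2.2 hy.2.2.1
    simp only [S4, mem_ofPred_eq, ps_mul, ps_inv, ps_mk, ← sub_eq_add_neg]
    exact ⟨this.1, hy.2.1, this.2.2, this.2.1⟩

theorem im0 : (fun x => (1 : LG) * x) '' S0 = S0 := by simp

theorem img_prod (g : LG) (σ : Equiv.Perm ℕ) (S : Set LG) (l : ℕ) :
    (fun p : LG × ℕ => (g * p.1, σ p.2)) '' (S ×ˢ {l}) = ((fun x => g * x) '' S) ×ˢ {σ l} := by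
  rw [← Set.image_singleton (f := σ), Set.prod_image_image_eq]

theorem mS0 : MeasurableSet S0 := measurableSet_setOfPred.2 <|
  (meas_X id).and ((meas_ps fun p => p < 0).and ((meas_ev id 1).and (meas_ev (fun p => -p) 1))).not
theorem mS1 : MeasurableSet S1 := measurableSet_setOfPred.2 <|
  (meas_X id).and ((meas_ps fun p => p < 0).and ((meas_ev id 1).and (meas_ev (fun p => -p) 1)))
theorem mS2 : MeasurableSet S2 := measurableSet_setOfPred.2 <|
  (meas_X id).and ((meas_ps fun p => 0 < p).and (meas_ev (fun p => -p) 1)).not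
theorem mS3 : MeasurableSet S3 := measurableSet_setOfPred.2 <|
  (meas_X id).and ((meas_ps fun p => 0 < p).and ((meas_ev (fun p => -p) 1).and (meas_ev id 0)))
theorem mS4 : MeasurableSet S4 := measurableSet_setOfPred.2 <|
  (meas_X id).and ((meas_ps fun p => 0 < p).and ((meas_ev (fun p => -p) 1).and (meas_ev id 1)))

theorem z01 : (0 : ZMod 3) ≠ 1 := by decide

theorem uA0 (x : LG) : x ∈ A ↔ x ∈ S0 ∨ x ∈ S1 := by
  simp only [A, S0, S1, mem_ofPred_eq]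
  tauto

theorem uA1 (x : LG) : x ∈ A ↔ x ∈ S2 ∨ x ∈ S3 ∨ x ∈ S4 := by
  simp only [A, S2, S3, S4, mem_ofPred_eq]
  constructor
  · intro h
    have := (h.1 (ps x)).1
    tauto
  · tauto

theorem uB0 (x : LG) : x ∈ B ↔ x ∈ S0 ∨ x ∈ T3 := Iff.rfl

theorem uS0 (x : LG) : x ∈ S0 ↔ x ∈ T1 ∨ x ∈ T2 := by
  simp only [S0, T1, T2, mem_ofPred_eq]
  constructor
  · rintro ⟨h, hn⟩
    by_cases ht : ps x < 0 ∧ cf x (- ps x) = 1
    · left
      have := (h.1 (ps x)).1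
      tauto
    · right
      refine ⟨X_pred h ht, fun h2 => ?_⟩
      exact not_X_succ h2.1 h2.2 (by simpa using h)
  · rintro (⟨h, h1, h2, h3⟩ | ⟨h, hn⟩)
    · refine ⟨h, fun h4 => ?_⟩
      rw [h2] at h4
      exact z01 h4.2.1
    · refine ⟨by simpa using X_succ h hn, fun h4 => ?_⟩
      exact not_X_pred h4.1 h4.2.2 h

theorem d01 : Disjoint S0 S1 := Set.disjoint_left.2 fun _ h1 h2 => h1.2 h2.2
theorem d23 : Disjoint S2 S3 := Set.disjoint_left.2 fun _ h1 h2 => h1.2 ⟨h2.2.1, h2.2.2.1⟩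
theorem d24 : Disjoint S2 S4 := Set.disjoint_left.2 fun _ h1 h2 => h1.2 ⟨h2.2.1, h2.2.2.1⟩
theorem d34 : Disjoint S3 S4 := Set.disjoint_left.2 fun _ h1 h2 => z01 (h1.2.2.2.symm.trans h2.2.2.2)
theorem e03 : Disjoint S0 T3 := Set.disjoint_left.2 fun _ h1 h2 =>
  not_X_succ h2.2.1 h2.2.2.1 (by simpa using h1.1)
theorem e12 : Disjoint T1 T2 := Set.disjoint_left.2 fun _ h1 h2 =>
  not_X_pred h1.2.1 h1.2.2.2 h2.1
theorem e13 : Disjoint T1 T3 := Set.disjoint_left.2 fun _ h1 h2 =>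
  not_X_pred h1.2.1 h1.2.2.2 h2.1
theorem e23 : Disjoint T2 T3 := Set.disjoint_left.2 fun _ h1 h2 => h1.2 ⟨h2.2.1, h2.2.2.1⟩

theorem two : ∃ (k : ℕ) (P : Fin k → Set (LG × ℕ)) (g : Fin k → LG) (σ : Fin k → Equiv.Perm ℕ),
      (∀ i, MeasurableSet (P i)) ∧
      Pairwise (fun i j => Disjoint (P i) (P j)) ∧
      (⋃ i, P i) = A ×ˢ Set.Iio 2 ∧
      Pairwise (fun i j =>
        Disjoint ((fun p : LG × ℕ => (g i * p.1, σ i p.2)) '' P i)
                 ((fun p : LG × ℕ => (g j * p.1, σ j p.2)) '' P j)) ∧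
      (⋃ i, (fun p : LG × ℕ => (g i * p.1, σ i p.2)) '' P i) = B ×ˢ Set.Iio 2 := by
  let S : Fin 5 → Set LG := ![S0, S1, S2, S3, S4]
  let T : Fin 5 → Set LG := ![S0, T1, T2, T3, T3]
  let l : Fin 5 → ℕ := ![0, 0, 1, 1, 1]
  let l' : Fin 5 → ℕ := ![0, 1, 1, 0, 1]
  let g : Fin 5 → LG := ![1, mk dl 0, mk 0 1, mk 0 1, mk dl 1]
  let σ : Fin 5 → Equiv.Perm ℕ := ![1, Equiv.swap 0 1, 1, Equiv.swap 0 1, 1]
  have him : ∀ i, (fun p : LG × ℕ => (g i * p.1, σ i p.2)) '' (S i ×ˢ {l i}) = T i ×ˢ {l' i} := by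
    intro i
    rw [img_prod]
    fin_cases i
    · exact congrArg₂ _ im0 rfl
    · exact congrArg₂ _ im1 rfl
    · exact congrArg₂ _ im2 rfl
    · exact congrArg₂ _ im3 rfl
    · exact congrArg₂ _ im4 rfl
  refine ⟨5, fun i => S i ×ˢ {l i}, g, σ, ?_, ?_, ?_, ?_, ?_⟩
  · intro i
    refine MeasurableSet.prod ?_ (measurableSet_singleton _)
    fin_cases i
    exacts [mS0, mS1, mS2, mS3, mS4]
  · intro i j hij
    simp only [Set.disjoint_prod]
    fin_cases i <;> fin_cases j <;>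
      simp_all [S, l, d01, d23, d24, d34, d01.symm, d23.symm, d24.symm, d34.symm]
  · ext ⟨x, m⟩
    simp only [mem_iUnion, mem_prod, mem_singleton_iff, mem_Iio, Fin.exists_fin_succ, S, l]
    have h0 := uA0 x
    have h1 := uA1 x
    rcases m with _ | _ | m
    · simp [h0]
    · simp [h1]
    · simp
  · intro i j hij
    simp only [him, Set.disjoint_prod]
    fin_cases i <;> fin_cases j <;>
      simp_all [T, l', e03, e12, e13, e23, e03.symm, e12.symm, e13.symm, e23.symm]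
  · simp only [him]
    ext ⟨x, m⟩
    simp only [mem_iUnion, mem_prod, mem_singleton_iff, mem_Iio, Fin.exists_fin_succ, T, l']
    have h0 := uB0 x
    have h1 := uS0 x
    rcases m with _ | _ | m
    · simp [h0]
    · simp [h0, h1, or_assoc]
    · simp

end Pool.Agent.H.MP_846a4c_an
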