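import Pool.Agent.H.MP_846a4c_an.A

set_option autoImplicit false

namespace Pool.Agent.H.MP_846a4c_an

open Set Classical

noncomputable def ind (T : Set LG) (e : Cfg) (p : ℤ) : ℤ := if mk e p ∈ T then 1 else 0

theorem ind_union {k : ℕ} (Q : Fin k → Set LG) (hd : Pairwise fun i j => Disjoint (Q i) (Q j))
    (e : Cfg) (p : ℤ) : ind (⋃ i, Q i) e p = ∑ i, ind (Q i) e p := by
  unfold ind
  by_cases h : mk e p ∈ ⋃ i, Q i
  · rw [if_pos h]
    obtain ⟨i, hi⟩ := mem_iUnion.1 h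
    rw [Finset.sum_eq_single i]
    · simp [hi]
    · intro j _ hj
      rw [if_neg]
      exact fun hj' => Set.disjoint_left.1 (hd hj) hj' hi
    · simp
  · rw [if_neg h]
    symm
    refine Finset.sum_eq_zero fun i _ => if_neg fun hi => h (mem_iUnion.2 ⟨i, hi⟩)

theorem cum (v : ℤ → ℤ) (m x y : ℤ) (h1 : m ≤ x) (h2 : x ≤ y) :
    ∑ p ∈ Finset.Ioc x y, v p = ∑ p ∈ Finset.Ioc m y, v p - ∑ p ∈ Finset.Ioc m x, v p := by
  rw [← Finset.Ioc_union_Ioc_eq_Ioc h1 h2, Finset.sum_union]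
  · ring
  · rw [Finset.disjoint_left]
    intro a h3 h4
    simp only [Finset.mem_Ioc] at h3 h4
    omega

noncomputable def F {k : ℕ} (P : Fin k → Set LG) (g : Fin k → LG) (R : ℤ) (e : Cfg) (c : ℤ) : ℤ :=
  ∑ i, (∑ p ∈ Finset.Ioc (c - R) c, ind (P i) e p -
    ∑ p ∈ Finset.Ioc (c - R) (c - ps (g i)), ind (P i) e p)

theorem move (P : Set LG) (g : LG) (S : Finset Cfg) (c1 c2 : ℤ)
    (hS : ∀ x ∈ P, c1 < ps x + ps g → ps x + ps g ≤ c2 → (cf x ∈ S ↔ cf (g * x) ∈ S)) :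
    ∑ e ∈ S, ∑ p ∈ Finset.Ioc c1 c2, ind ((fun x => g * x) '' P) e p =
      ∑ e ∈ S, ∑ p ∈ Finset.Ioc (c1 - ps g) (c2 - ps g), ind P e p := by
  rw [← Finset.sum_product', ← Finset.sum_product']
  unfold ind
  rw [Finset.sum_boole, Finset.sum_boole]
  congr 1
  symm
  refine Finset.card_bij (fun z _ => (cf (g * mk z.1 z.2), ps (g * mk z.1 z.2))) ?_ ?_ ?_
  · intro z hz
    simp only [Finset.mem_filter, Finset.mem_product, Finset.mem_Ioc] at hz ⊢
    obtain ⟨⟨h1, h2, h3⟩, h4⟩ := hz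
    have := hS _ h4 (by simp; omega) (by simp; omega)
    refine ⟨⟨this.1 h1, ?_, ?_⟩, ⟨_, h4, rfl⟩⟩
    · simp [ps_mul]; omega
    · simp [ps_mul]; omega
  · intro z _ w _ h
    have h1 : g * mk z.1 z.2 = g * mk w.1 w.2 :=
      LG.ext (congrArg Prod.fst h) (congrArg Prod.snd h)
    have h2 : mk z.1 z.2 = mk w.1 w.2 := mul_left_cancel h1
    exact h2
  · intro w hw
    simp only [Finset.mem_filter, Finset.mem_product, Finset.mem_Ioc] at hw
    obtain ⟨⟨h1, h2, h3⟩, x, hx, h4⟩ := hw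
    have h5 : cf (g * x) = w.1 := congrArg cf h4
    have h6 : ps x + ps g = w.2 := congrArg ps h4
    refine ⟨(cf x, ps x), ?_, ?_⟩
    · simp only [Finset.mem_filter, Finset.mem_product, Finset.mem_Ioc]
      refine ⟨⟨(hS x hx (by omega) (by omega)).2 (by rwa [h5]), by omega, by omega⟩, hx⟩
    · exact Prod.ext h5 h6

theorem cons {k : ℕ} (P : Fin k → Set LG) (g : Fin k → LG) (R : ℤ)
    (hd : Pairwise fun i j => Disjoint (P i) (P j)) (hA : (⋃ i, P i) = A)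
    (hd' : Pairwise fun i j => Disjoint ((fun x => g i * x) '' P i) ((fun x => g j * x) '' P j))
    (hB : (⋃ i, (fun x => g i * x) '' P i) = B) (hR : ∀ i, |ps (g i)| ≤ R) (hR0 : 0 ≤ R)
    (S : Finset Cfg) (c1 c2 : ℤ) (hc : c1 ≤ c2)
    (hS : ∀ i, ∀ x ∈ P i, c1 < ps x + ps (g i) → ps x + ps (g i) ≤ c2 →
      (cf x ∈ S ↔ cf (g i * x) ∈ S)) :
    ∑ e ∈ S, ∑ p ∈ Finset.Ioc c1 c2, (ind A e p - ind B e p) =
      ∑ e ∈ S, (F P g R e c2 - F P g R e c1) := by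
  have key : ∀ i, ∑ e ∈ S, ∑ p ∈ Finset.Ioc c1 c2,
      (ind (P i) e p - ind ((fun x => g i * x) '' P i) e p) =
      ∑ e ∈ S, ((∑ p ∈ Finset.Ioc (c2 - R) c2, ind (P i) e p -
        ∑ p ∈ Finset.Ioc (c2 - R) (c2 - ps (g i)), ind (P i) e p) -
        (∑ p ∈ Finset.Ioc (c1 - R) c1, ind (P i) e p -
        ∑ p ∈ Finset.Ioc (c1 - R) (c1 - ps (g i)), ind (P i) e p)) := by
    intro i
    simp only [Finset.sum_sub_distrib]
    rw [move (P i) (g i) S c1 c2 (hS i)]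
    simp only [← Finset.sum_sub_distrib]
    refine Finset.sum_congr rfl fun e _ => ?_
    have h := abs_le.1 (hR i)
    rw [cum _ (c1 - R) c1 c2 (by omega) hc,
      cum _ (c1 - R) (c1 - ps (g i)) (c2 - ps (g i)) (by omega) (by omega),
      cum _ (c1 - R) (c2 - R) c2 (by omega) (by omega),
      cum _ (c1 - R) (c2 - R) (c2 - ps (g i)) (by omega) (by omega)]
    ring
  rw [← hA, ← hB]
  simp only [ind_union _ hd, ind_union _ hd', F, ← Finset.sum_sub_distrib]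
  symm
  rw [Finset.sum_comm, ← Finset.sum_congr rfl fun i _ => key i, Finset.sum_comm]
  refine Finset.sum_congr rfl fun e _ => ?_
  rw [Finset.sum_comm]

theorem F_zero {k : ℕ} (P : Fin k → Set LG) (g : Fin k → LG) (R : ℤ) (hA : (⋃ i, P i) = A)
    (hR : ∀ i, |ps (g i)| ≤ R) (e : Cfg) (c : ℤ)
    (h : ∀ p, c - R < p → p ≤ c + R → ¬ X e p) : F P g R e c = 0 := by
  refine Finset.sum_eq_zero fun i _ => ?_
  have h2 := abs_le.1 (hR i)
  have h3 : ∀ p, c - R < p → p ≤ c + R → ind (P i) e p = 0 := by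
    intro p h4 h5
    refine if_neg fun h6 => h p h4 h5 ?_
    have : mk e p ∈ A := hA ▸ mem_iUnion.2 ⟨i, h6⟩
    exact this
  rw [Finset.sum_eq_zero, Finset.sum_eq_zero, sub_zero]
  · intro p hp
    simp only [Finset.mem_Ioc] at hp
    exact h3 p hp.1 (by omega)
  · intro p hp
    simp only [Finset.mem_Ioc] at hp
    exact h3 p hp.1 (by omega)

end Pool.Agent.H.MP_846a4c_an
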