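import Pool.Agent.H.MP_846a4c_an.B
import Pool.Agent.H.MP_846a4c_an.C

set_option autoImplicit false

namespace Pool.Agent.H.MP_846a4c_an

open Set Classical

abbrev Dg := ℕ → Fin 3

def r (v : Fin 3) : ZMod 3 := if v = 0 then 0 else 1
def l (v : Fin 3) : ZMod 3 := if v = 2 then 0 else 1

noncomputable def io (d : Dg) : Cfg := fun q =>
  if h : Lamp q then (if 0 < q then r (d h.choose) else l (d h.choose)) else 0

theorem b_mono : StrictMono b := by
  intro i j h
  unfold b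
  have : (2 : ℤ) ^ i < 2 ^ j := pow_lt_pow_right₀ (by norm_num) h
  omega

theorem lamp_b (j : ℕ) : Lamp (b j) := ⟨j, (abs_of_pos (b_pos j)).symm⟩
theorem lamp_nb (j : ℕ) : Lamp (-b j) := (lamp_neg _).2 (lamp_b j)

theorem io_pos (d : Dg) (j : ℕ) : io d (b j) = r (d j) := by
  have h := lamp_b j
  have h2 : h.choose = j := b_mono.injective (by rw [h.choose_spec, abs_of_pos (b_pos j)])
  simp only [io, dif_pos h, if_pos (b_pos j), h2]

theorem io_neg (d : Dg) (j : ℕ) : io d (-b j) = l (d j) := by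
  have h := lamp_nb j
  have h2 : h.choose = j := b_mono.injective (by rw [h.choose_spec, abs_neg, abs_of_pos (b_pos j)])
  have h3 : ¬ 0 < -b j := by have := b_pos j; omega
  simp only [io, dif_pos h, if_neg h3, h2]

theorem io_non (d : Dg) {q : ℤ} (h : ¬ Lamp q) : io d q = 0 := by simp only [io, dif_neg h]

theorem lamp_cases {q : ℤ} (h : Lamp q) : ∃ j, q = b j ∨ q = -b j := by
  obtain ⟨j, hj⟩ := h
  refine ⟨j, ?_⟩
  rcases abs_cases q with h | h <;> omega

theorem cases3 (q : ℤ) : (∃ j, q = b j) ∨ (∃ j, q = -b j) ∨ ¬ Lamp q := by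
  by_cases h : Lamp q
  · obtain ⟨j, h | h⟩ := lamp_cases h
    exacts [Or.inl ⟨j, h⟩, Or.inr (Or.inl ⟨j, h⟩)]
  · exact Or.inr (Or.inr h)

theorem K_io (d : Dg) : K (io d) := by
  intro q
  rcases cases3 q with ⟨j, rfl⟩ | ⟨j, rfl⟩ | h
  · rw [io_pos, io_neg]
    refine ⟨?_, fun _ => ?_, fun h => absurd (lamp_b j) h⟩ <;> generalize d j = v <;> revert v <;>
      decide
  · rw [io_neg, neg_neg, io_pos]
    refine ⟨?_, fun _ => ?_, fun h => absurd (lamp_nb j) h⟩ <;> generalize d j = v <;> revert v <;>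
      decide
  · rw [io_non d h]
    exact ⟨Or.inl rfl, fun h' => absurd h' h, fun _ => rfl⟩

theorem io_surj {e : Cfg} (h : K e) : ∃ d, io d = e := by
  refine ⟨fun j => if e (b j) = 0 then 0 else if e (-b j) = 0 then 2 else 1, ?_⟩
  funext q
  rcases cases3 q with ⟨j, rfl⟩ | ⟨j, rfl⟩ | hq
  · rw [io_pos]
    have h1 := (h (b j)).1
    generalize e (b j) = x at *
    generalize e (-b j) = y at *
    revert x y
    decide
  · rw [io_neg]
    have h1 := (h (b j)).1
    have h2 := (h (-b j)).1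
    have h3 := (h (b j)).2.1 (lamp_b j)
    generalize e (b j) = x at *
    generalize e (-b j) = y at *
    revert x y
    decide
  · rw [io_non _ hq, (h q).2.2 hq]

theorem dig_eq {d d' : Dg} {j : ℕ} (h1 : io d (b j) = io d' (b j))
    (h2 : io d (-b j) = io d' (-b j)) : d j = d' j := by
  rw [io_pos, io_pos] at h1
  rw [io_neg, io_neg] at h2
  generalize d j = x at *
  generalize d' j = y at *
  revert x y
  decide

theorem io_inj : Function.Injective io := fun _ _ h =>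
  funext fun _ => dig_eq (congrFun h _) (congrFun h _)

theorem io_congr {d d' : Dg} {q : ℤ} (h : ∀ j, b j = |q| → d j = d' j) : io d q = io d' q := by
  rcases cases3 q with ⟨j, rfl⟩ | ⟨j, rfl⟩ | hq
  · rw [io_pos, io_pos, h j (abs_of_pos (b_pos j)).symm]
  · rw [io_neg, io_neg, h j (by rw [abs_neg, abs_of_pos (b_pos j)])]
  · rw [io_non _ hq, io_non _ hq]

theorem cont_io : Continuous io := by
  refine continuous_pi fun q => ?_
  rcases cases3 q with ⟨j, rfl⟩ | ⟨j, rfl⟩ | hq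
  · simp only [io_pos]
    exact (continuous_of_discreteTopology (f := r)).comp (continuous_apply (A := fun _ => Fin 3) j)
  · simp only [io_neg]
    exact (continuous_of_discreteTopology (f := l)).comp (continuous_apply (A := fun _ => Fin 3) j)
  · simp only [io_non _ hq]
    exact continuous_const

theorem r1 (v : Fin 3) : r v = 1 ↔ v ≠ 0 := by revert v; decide
theorem l1 (v : Fin 3) : l v = 1 ↔ v ≠ 2 := by revert v; decide
theorem r0 (v : Fin 3) : r v = 0 ↔ v = 0 := by revert v; decide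

theorem X_io (d : Dg) (p : ℤ) :
    X (io d) p ↔ ∀ j, (d j ≠ 2 → p ≤ b j) ∧ (d j ≠ 0 → -b j ≤ p) := by
  constructor
  · intro h j
    have := h.2 (b j) (b_pos j)
    rwa [io_pos, io_neg, r1, l1] at this
  · intro h
    refine ⟨K_io d, fun q hq => ?_⟩
    rcases cases3 q with ⟨j, rfl⟩ | ⟨j, rfl⟩ | hn
    · rw [io_pos, io_neg, r1, l1]
      exact h j
    · have := b_pos j
      omega
    · rw [io_non _ hn, io_non _ (by rwa [lamp_neg])]
      exact ⟨fun h => absurd h z01, fun h => absurd h z01⟩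

def LT (d : Dg) (p : ℤ) : Prop := ∃ j, p = -b j ∧ d j = 1 ∧ ∀ j' < j, d j' = 0
def RT (d : Dg) (p : ℤ) : Prop := ∃ j, p = b j ∧ d j = 0 ∧ ∀ j' < j, d j' = 2

theorem S1_io (d : Dg) (p : ℤ) : mk (io d) p ∈ S1 ↔ LT d p := by
  simp only [S1, mem_ofPred_eq, cf_mk, ps_mk, X_io]
  constructor
  · rintro ⟨h, h1, h2, h3⟩
    rcases cases3 p with ⟨j, rfl⟩ | ⟨j, rfl⟩ | hn
    · have := b_pos j
      omega
    · rw [io_neg, l1] at h2
      rw [neg_neg, io_pos, r1] at h3
      refine ⟨j, rfl, by omega, fun j' hj' => ?_⟩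
      by_contra h4
      have := (h j').2 h4
      have := b_mono hj'
      omega
    · rw [io_non _ hn] at h2
      exact absurd h2 z01
  · rintro ⟨j, rfl, h1, h2⟩
    have h0 := b_pos j
    refine ⟨fun j' => ⟨fun _ => ?_, fun h3 => ?_⟩, by omega, ?_, ?_⟩
    · have := b_pos j'
      omega
    · have : j ≤ j' := by
        by_contra h4
        exact h3 (h2 j' (by omega))
      have := b_mono.monotone this
      omega
    · rw [io_neg, h1]; rfl
    · rw [neg_neg, io_pos, h1]; rfl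

theorem T3_io (d : Dg) (p : ℤ) : mk (io d) p ∈ T3 ↔ RT d (p - 1) := by
  simp only [T3, mem_ofPred_eq, cf_mk, ps_mk, X_io]
  generalize p - 1 = p
  constructor
  · rintro ⟨h, h1, h2, h3⟩
    rcases cases3 p with ⟨j, rfl⟩ | ⟨j, rfl⟩ | hn
    · rw [io_pos, r0] at h3
      refine ⟨j, rfl, h3, fun j' hj' => ?_⟩
      by_contra h4
      have := (h j').1 h4
      have := b_mono hj'
      omega
    · have := b_pos j
      omega
    · rw [io_non _ (by rwa [lamp_neg])] at h2
      exact absurd h2 z01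
  · rintro ⟨j, rfl, h1, h2⟩
    have h0 := b_pos j
    refine ⟨fun j' => ⟨fun h3 => ?_, fun _ => ?_⟩, by omega, ?_, ?_⟩
    · have : j ≤ j' := by
        by_contra h4
        exact h3 (h2 j' (by omega))
      exact b_mono.monotone this
    · have := b_pos j'
      omega
    · rw [io_neg, h1]; rfl
    · rw [io_pos, h1]; rfl

theorem ind_diff (d : Dg) (p : ℤ) : ind A (io d) p - ind B (io d) p =
    (if LT d p then 1 else 0) - (if RT d (p - 1) then 1 else 0) := by
  unfold ind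
  rw [uA0, uB0, ← S1_io, ← T3_io]
  have h1 : mk (io d) p ∈ S0 → mk (io d) p ∉ S1 := fun h => Set.disjoint_left.1 d01 h
  have h2 : mk (io d) p ∈ S0 → mk (io d) p ∉ T3 := fun h => Set.disjoint_left.1 e03 h
  by_cases a0 : mk (io d) p ∈ S0 <;> by_cases a1 : mk (io d) p ∈ S1 <;>
    by_cases a2 : mk (io d) p ∈ T3 <;> simp_all

structure Dec {k : ℕ} (P : Fin k → Set LG) (g : Fin k → LG) (R : ℤ) : Prop where
  hd : Pairwise fun i j => Disjoint (P i) (P j)
  hA : (⋃ i, P i) = A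
  hd' : Pairwise fun i j => Disjoint ((fun x => g i * x) '' P i) ((fun x => g j * x) '' P j)
  hB : (⋃ i, (fun x => g i * x) '' P i) = B
  hR : ∀ i, |ps (g i)| ≤ R
  hR0 : 0 ≤ R
  hs : ∀ i, (Function.support (cf (g i))).Finite → ∀ q, R < |q| → cf (g i) q = 0

def Ok (q : ℤ) (v : ZMod 3) : Prop := (v = 0 ∨ v = 1) ∧ (¬ Lamp q → v = 0)

def Good {k : ℕ} (g : Fin k → LG) (e : Cfg) : Prop :=
  ∀ (i : Fin k) (p : ℤ) (s : ZMod 3), s ≠ 0 → ¬ (Function.support (cf (g i))).Finite →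
    ∀ m : ℤ, ∃ q, m < |q| ∧ ¬ Ok q (e q + s * cf (g i) (q - p))

theorem cons' {k : ℕ} {P : Fin k → Set LG} {g : Fin k → LG} {R : ℤ} (H : Dec P g R)
    {e0 : Cfg} (hg : Good g e0) (Z : ℤ → Prop) (m : ℤ) (hm : ∀ q, Z q → |q| ≤ m)
    (S : Finset Cfg) (hS : ∀ e, e ∈ S ↔ K e ∧ ∀ q, ¬ Z q → e q = e0 q)
    (c1 c2 : ℤ) (hc : c1 ≤ c2) (hZ : ∀ q, Lamp q → c1 - 2 * R ≤ q → q ≤ c2 + 2 * R → Z q) :
    ∑ e ∈ S, ∑ p ∈ Finset.Ioc c1 c2, (ind A e p - ind B e p) =
      ∑ e ∈ S, (F P g R e c2 - F P g R e c1) := by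
  refine cons P g R H.hd H.hA H.hd' H.hB H.hR H.hR0 S c1 c2 hc fun i x hx h1 h2 => ?_
  have hxA : x ∈ A := H.hA ▸ mem_iUnion.2 ⟨i, hx⟩
  have hxB : g i * x ∈ B := H.hB ▸ mem_iUnion.2 ⟨i, x, hx, rfl⟩
  have k1 : K (cf x) := hxA.1
  have k2 : K (cf (g i * x)) := by
    rcases hxB with h | h
    exacts [h.1.1, h.1.1]
  rw [hS, hS]
  by_cases hf : (Function.support (cf (g i))).Finite
  · have key : ∀ q, ¬ Z q → cf (g i * x) q = cf x q := by
      intro q hq
      by_cases hl : Lamp q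
      · have h3 := abs_le.1 (H.hR i)
        have h4 : R < |q - ps x| := by
          by_contra h5
          have := abs_le.1 (not_lt.1 h5)
          exact hq (hZ q hl (by omega) (by omega))
        rw [cf_mul, H.hs i hf _ h4, add_zero]
      · rw [(k1 q).2.2 hl, (k2 q).2.2 hl]
    constructor
    · exact fun h => ⟨k2, fun q hq => by rw [key q hq, h.2 q hq]⟩
    · exact fun h => ⟨k1, fun q hq => by rw [← key q hq, h.2 q hq]⟩
  · constructor
    · intro h
      obtain ⟨q, hq, h3⟩ := hg i (ps x) 1 (by decide) hf m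
      have h4 : ¬ Z q := fun h5 => absurd (hm q h5) (by omega)
      rw [← h.2 q h4, one_mul, ← cf_mul] at h3
      exact absurd ⟨(k2 q).1, (k2 q).2.2⟩ h3
    · intro h
      obtain ⟨q, hq, h3⟩ := hg i (ps x) (-1) (by decide) hf m
      have h4 : ¬ Z q := fun h5 => absurd (hm q h5) (by omega)
      rw [← h.2 q h4, cf_mul, neg_one_mul, add_neg_cancel_right] at h3
      exact absurd ⟨(k1 q).1, (k1 q).2.2⟩ h3

theorem Good.tail {k : ℕ} {g : Fin k → LG} {d d' : Dg} (h : Good g (io d)) (n : ℕ)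
    (hn : ∀ j, n < j → d' j = d j) : Good g (io d') := by
  intro i p s hs hf m
  obtain ⟨q, hq, h1⟩ := h i p s hs hf (max m (b n))
  refine ⟨q, lt_of_le_of_lt (le_max_left _ _) hq, ?_⟩
  rwa [io_congr (d := d') (d' := d)]
  intro j hj
  refine hn j (b_mono.lt_iff_lt.1 ?_)
  have := le_max_right m (b n)
  omega

end Pool.Agent.H.MP_846a4c_an
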