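import Pool.Agent.H.MP_846a4c_an.D

set_option autoImplicit false

namespace Pool.Agent.H.MP_846a4c_an

open Set Classical

def ka (n : ℕ) : ℤ := 3 * 2 ^ n

theorem kb1 {j n : ℕ} (h : j ≤ n) : b j + 2 ^ n ≤ ka n := by
  have := b_mono.monotone h
  unfold b ka at *
  omega

theorem kb2 {j n : ℕ} (h : n < j) : ka n + 2 ^ n ≤ b j := by
  have := b_mono.monotone (show n + 1 ≤ j from h)
  unfold b ka at *
  rw [pow_succ] at this
  omega

theorem ka_succ (n : ℕ) : ka (n + 1) = 2 * ka n := by unfold ka; ring
theorem ka_pos (n : ℕ) : 0 < ka n := by unfold ka; positivity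
theorem pw_succ (n : ℕ) : (2 : ℤ) ^ (n + 1) = 2 * 2 ^ n := by ring

def top (v : Fin 3) (n : ℕ) (d : Dg) : Dg := fun j => if j ≤ n then v else d j

def ex (n : ℕ) (d : Dg) (w : Fin (n + 1) → Fin 3) : Dg :=
  fun j => if h : j < n + 1 then w ⟨j, h⟩ else d j

theorem ex_inj (n : ℕ) (d : Dg) : Function.Injective (ex n d) := by
  intro w w' h
  funext j
  have := congrFun h j
  simpa [ex, j.2] using this

theorem ex_const (n : ℕ) (d : Dg) (v : Fin 3) : ex n d (fun _ => v) = top v n d := by
  funext j
  simp only [ex, top, Nat.lt_succ_iff]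
  split_ifs <;> rfl

theorem ex_ne (n : ℕ) (d : Dg) (v : Fin 3) (w : Fin (n + 1) → Fin 3) (h : w ≠ fun _ => v) :
    ∃ j ≤ n, ex n d w j ≠ v := by
  obtain ⟨j, hj⟩ := Function.ne_iff.1 h
  exact ⟨j, Nat.lt_succ_iff.1 j.2, by simpa [ex, j.2] using hj⟩

theorem LT_RT (n : ℕ) (d : Dg) (w : Fin (n + 1) → Fin 3) (p : ℤ) (hp : |p| ≤ ka n) :
    LT (ex n d w) p ↔ RT (ex n d (fun j => w j - 1)) (-p) := by
  have h0 : (0 : ℤ) < 2 ^ n := by positivity
  have hp' := abs_le.1 hp
  have e1 : ∀ v : Fin 3, v = 1 ↔ v - 1 = 0 := by decide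
  have e2 : ∀ v : Fin 3, v = 0 ↔ v - 1 = 2 := by decide
  constructor
  · rintro ⟨j, rfl, h1, h2⟩
    have hj : j < n + 1 := by
      by_contra h3
      have := kb2 (show n < j by omega)
      omega
    refine ⟨j, by simp, ?_, fun j' hj' => ?_⟩
    · simp only [ex, dif_pos hj] at h1 ⊢
      exact (e1 _).1 h1
    · have := h2 j' hj'
      simp only [ex, dif_pos (hj'.trans hj)] at this ⊢
      exact (e2 _).1 this
  · rintro ⟨j, h, h1, h2⟩
    have hj : j < n + 1 := by
      by_contra h3
      have := kb2 (show n < j by omega)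
      omega
    refine ⟨j, by omega, ?_, fun j' hj' => ?_⟩
    · simp only [ex, dif_pos hj] at h1 ⊢
      exact (e1 _).2 h1
    · have := h2 j' hj'
      simp only [ex, dif_pos (hj'.trans hj)] at this ⊢
      exact (e2 _).2 this

theorem block_zero (n : ℕ) (d : Dg) :
    ∑ w : Fin (n + 1) → Fin 3, ∑ p ∈ Finset.Ioc (-ka n) (ka n),
      (ind A (io (ex n d w)) p - ind B (io (ex n d w)) p) = 0 := by
  simp only [ind_diff, Finset.sum_sub_distrib]
  rw [sub_eq_zero]
  refine Finset.sum_equiv (Equiv.piCongrRight fun _ => Equiv.subRight (1 : Fin 3)) (by simp) ?_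
  intro w _
  refine Finset.sum_equiv (Equiv.subLeft (1 : ℤ)) ?_ ?_
  · intro p
    simp only [Finset.mem_Ioc, Equiv.subLeft_apply]
    omega
  · intro p hp
    simp only [Finset.mem_Ioc] at hp
    have := LT_RT n d w p (abs_le.2 ⟨by omega, hp.2⟩)
    have e : (Equiv.subLeft (1 : ℤ)) p - 1 = -p := by simp
    rw [e]
    exact if_congr this rfl rfl

variable {k : ℕ} {P : Fin k → Set LG} {g : Fin k → LG} {R : ℤ}

noncomputable def FR (P : Fin k → Set LG) (g : Fin k → LG) (R : ℤ) (n : ℕ) (d : Dg) : ℤ :=
  F P g R (io (top 2 n d)) (ka n)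
noncomputable def FL (P : Fin k → Set LG) (g : Fin k → LG) (R : ℤ) (n : ℕ) (d : Dg) : ℤ :=
  F P g R (io (top 0 n d)) (-ka n)

theorem rel1 (H : Dec P g R) {n : ℕ} (hn : 2 * R + 2 ≤ 2 ^ n) {d : Dg} (hg : Good g (io d)) :
    FR P g R n d = FL P g R n d := by
  have hR0 := H.hR0
  have hinj : Function.Injective fun w => io (ex n d w) := io_inj.comp (ex_inj n d)
  have := cons' H hg (fun q => |q| ≤ ka n) (ka n) (fun _ h => h)
    (Finset.univ.image fun w => io (ex n d w)) ?_ (-ka n) (ka n) (by have := ka_pos n; omega) ?_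
  · rw [Finset.sum_image (fun _ _ _ _ h => hinj h), Finset.sum_image (fun _ _ _ _ h => hinj h),
      block_zero, Finset.sum_sub_distrib, Finset.sum_eq_single (fun _ => 2),
      Finset.sum_eq_single (fun _ => 0), ex_const, ex_const] at this
    · unfold FR FL
      omega
    · intro w _ hw
      obtain ⟨j, hj, h1⟩ := ex_ne n d _ w hw
      refine F_zero P g R H.hA H.hR _ _ fun p h2 h3 h4 => ?_
      have := ((X_io _ _).1 h4 j).2 h1
      have := kb1 hj
      omega
    · simp
    · intro w _ hw
      obtain ⟨j, hj, h1⟩ := ex_ne n d _ w hw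
      refine F_zero P g R H.hA H.hR _ _ fun p h2 h3 h4 => ?_
      have := ((X_io _ _).1 h4 j).1 h1
      have := kb1 hj
      omega
    · simp
  · intro e
    simp only [Finset.mem_image, Finset.mem_univ, true_and]
    constructor
    · rintro ⟨w, rfl⟩
      refine ⟨K_io _, fun q hq => io_congr fun j hj => ?_⟩
      have : ¬ j < n + 1 := by
        intro h
        have := kb1 (Nat.lt_succ_iff.1 h)
        omega
      simp only [ex, dif_neg this]
    · rintro ⟨h1, h2⟩
      obtain ⟨d', rfl⟩ := io_surj h1
      refine ⟨fun j => d' j, congrArg io ?_⟩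
      funext j
      simp only [ex]
      split_ifs with h
      · rfl
      · have h3 := kb2 (show n < j by omega)
        have h4 := b_pos j
        symm
        refine dig_eq (h2 _ ?_) (h2 _ ?_)
        · rw [abs_of_pos h4]; omega
        · rw [abs_neg, abs_of_pos h4]; omega
  · rintro q ⟨j, hj⟩ h1 h2
    rw [← hj]
    by_cases h : j ≤ n
    · have := kb1 h
      omega
    · have := kb2 (show n < j by omega)
      rcases abs_cases q with h | h <;> omega

theorem winR {n : ℕ} (hn : 2 * R + 2 ≤ 2 ^ n) (q : ℤ) (hl : Lamp q)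
    (h1 : ka n - 2 * R ≤ q) (h2 : q ≤ ka (n + 1) + 2 * R) : q = b (n + 1) := by
  have h0 : (0 : ℤ) < 2 ^ n := by positivity
  obtain ⟨j, rfl | rfl⟩ := lamp_cases hl
  · rcases lt_trichotomy j (n + 1) with h | rfl | h
    · have := kb1 (Nat.lt_succ_iff.1 h)
      omega
    · rfl
    · have := kb2 h
      rw [pw_succ] at this
      omega
  · have := b_pos j
    unfold ka at h1
    omega

theorem agree {d' D : Dg} {n : ℕ} {z : ℤ} (hz : |z| = b n)
    (h : ∀ q, ¬ q = z → io d' q = io D q) (j : ℕ) (hj : j ≠ n) : d' j = D j := by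
  have h1 : b j ≠ b n := fun h => hj (b_mono.injective h)
  have := b_pos j
  refine dig_eq (h _ ?_) (h _ ?_)
  · rintro rfl
    rw [abs_of_pos this] at hz
    exact h1 hz
  · rintro rfl
    rw [abs_neg, abs_of_pos this] at hz
    exact h1 hz

theorem top_succ {v : Fin 3} {n : ℕ} {d : Dg} (h : d (n + 1) = v) :
    top v (n + 1) d = top v n d := by
  funext j
  simp only [top]
  split_ifs with h1 h2 h2
  · rfl
  · rw [show j = n + 1 by omega, h]
  · omega
  · rfl

theorem good_top {d : Dg} (hg : Good g (io d)) (v : Fin 3) (n : ℕ) : Good g (io (top v n d)) :=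
  hg.tail n fun j hj => by simp [top, not_le.2 hj]

theorem rel3R (H : Dec P g R) {n : ℕ} (hn : 2 * R + 2 ≤ 2 ^ n) {d : Dg} (hg : Good g (io d))
    (hd : d (n + 1) = 2) : FR P g R n d = FR P g R (n + 1) d := by
  have hb := b_pos (n + 1)
  have := cons' H (good_top hg 2 (n + 1)) (fun q => q = b (n + 1)) (b (n + 1))
    (fun q h => by rw [h, abs_of_pos hb]) {io (top 2 (n + 1) d)} ?_ (ka n) (ka (n + 1))
    (by have := ka_pos n; rw [ka_succ]; omega) (winR hn)
  · rw [Finset.sum_singleton, Finset.sum_singleton, Finset.sum_eq_zero] at this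
    · unfold FR
      rw [← top_succ hd]
      omega
    · intro p hp
      simp only [Finset.mem_Ioc] at hp
      rw [ind_diff, if_neg, if_neg, sub_zero]
      · rintro ⟨j, h1, h2, -⟩
        have h3 : n + 1 < j := by
          by_contra h4
          simp [top, not_lt.1 h4] at h2
        have := kb2 h3
        have : (0 : ℤ) < 2 ^ (n + 1) := by positivity
        omega
      · rintro ⟨j, h1, -⟩
        have := b_pos j
        have := ka_pos n
        omega
  · intro e
    simp only [Finset.mem_singleton]
    constructor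
    · rintro rfl
      exact ⟨K_io _, fun _ _ => rfl⟩
    · rintro ⟨h1, h2⟩
      obtain ⟨d', rfl⟩ := io_surj h1
      refine congrArg io (funext fun j => ?_)
      by_cases hj : j = n + 1
      · subst hj
        have := h2 (-b (n + 1)) (by omega)
        rw [io_neg, io_neg] at this
        simp only [top, le_refl, if_true] at this ⊢
        generalize d' (n + 1) = v at *
        revert v
        decide
      · exact agree (abs_of_pos hb) h2 j hj

theorem rel3L (H : Dec P g R) {n : ℕ} (hn : 2 * R + 2 ≤ 2 ^ n) {d : Dg} (hg : Good g (io d))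
    (hd : d (n + 1) = 0) : FL P g R n d = FL P g R (n + 1) d := by
  have hb := b_pos (n + 1)
  have := cons' H (good_top hg 0 (n + 1)) (fun q => q = -b (n + 1)) (b (n + 1))
    (fun q h => by rw [h, abs_neg, abs_of_pos hb]) {io (top 0 (n + 1) d)} ?_ (-ka (n + 1)) (-ka n)
    (by have := ka_pos n; rw [ka_succ]; omega) ?_
  · rw [Finset.sum_singleton, Finset.sum_singleton, Finset.sum_eq_zero] at this
    · unfold FL
      rw [← top_succ hd]
      omega
    · intro p hp
      simp only [Finset.mem_Ioc] at hp
      rw [ind_diff, if_neg, if_neg, sub_zero]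
      · rintro ⟨j, h1, -⟩
        have := b_pos j
        have := ka_pos n
        omega
      · rintro ⟨j, h1, h2, -⟩
        have h3 : n + 1 < j := by
          by_contra h4
          simp [top, not_lt.1 h4] at h2
        have := kb2 h3
        have : (0 : ℤ) < 2 ^ (n + 1) := by positivity
        omega
  · intro e
    simp only [Finset.mem_singleton]
    constructor
    · rintro rfl
      exact ⟨K_io _, fun _ _ => rfl⟩
    · rintro ⟨h1, h2⟩
      obtain ⟨d', rfl⟩ := io_surj h1
      refine congrArg io (funext fun j => ?_)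
      by_cases hj : j = n + 1
      · subst hj
        have := h2 (b (n + 1)) (by omega)
        rw [io_pos, io_pos] at this
        simp only [top, le_refl, if_true] at this ⊢
        generalize d' (n + 1) = v at *
        revert v
        decide
      · exact agree (by rw [abs_neg, abs_of_pos hb]) h2 j hj
  · intro q hl h1 h2
    have := winR hn (-q) ((lamp_neg q).2 hl) (by omega) (by omega)
    omega

theorem rel2 (H : Dec P g R) {n : ℕ} (hn : 2 * R + 2 ≤ 2 ^ n) {d : Dg} (hg : Good g (io d))
    (hd : d (n + 1) = 0) :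
    FR P g R n d + FR P g R n (Function.update d (n + 1) 1) = 1 := by
  have hb := b_pos (n + 1)
  have hR0 := H.hR0
  have h0 : (0 : ℤ) < 2 ^ n := by positivity
  have a0 : top 2 n d (n + 1) = 0 := by simp [top, hd]
  have a1 : top 2 n (Function.update d (n + 1) 1) (n + 1) = 1 := by simp [top]
  have a2 : ∀ j, j ≠ n + 1 → top 2 n (Function.update d (n + 1) 1) j = top 2 n d j := by
    intro j hj
    simp [top, hj]
  have hne : io (top 2 n d) ≠ io (top 2 n (Function.update d (n + 1) 1)) := by
    intro h
    have := congrFun (io_inj h) (n + 1)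
    rw [a0, a1] at this
    exact absurd this (by decide)
  have hz : ∀ D : Dg, D (n + 1) ≠ 2 → F P g R (io D) (ka (n + 1)) = 0 := by
    intro D hD
    refine F_zero P g R H.hA H.hR _ _ fun p h2 h3 h4 => ?_
    have := ((X_io _ _).1 h4 (n + 1)).1 hD
    have := kb1 (le_refl (n + 1))
    rw [pw_succ] at this
    omega
  have hLT : ∀ (D : Dg) (p : ℤ), ka n < p → ¬ LT D p := by
    rintro D p hp ⟨j, h1, -⟩
    have := b_pos j
    have := ka_pos n
    omega
  have hw : ∀ j p, ka n < p → p ≤ ka (n + 1) → p - 1 = b j → j = n + 1 := by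
    intro j p h1 h2 h3
    have := winR hn (b j) (lamp_b j) (by omega) (by omega)
    exact b_mono.injective this
  have := cons' H (good_top hg 2 n) (fun q => q = b (n + 1)) (b (n + 1))
    (fun q h => by rw [h, abs_of_pos hb])
    {io (top 2 n d), io (top 2 n (Function.update d (n + 1) 1))} ?_ (ka n) (ka (n + 1))
    (by have := ka_pos n; rw [ka_succ]; omega) (winR hn)
  · rw [Finset.sum_pair hne, Finset.sum_pair hne, hz _ (by rw [a0]; decide),
      hz _ (by rw [a1]; decide), Finset.sum_eq_single (b (n + 1) + 1), Finset.sum_eq_zero,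
      ind_diff, if_neg, if_pos] at this
    · unfold FR
      omega
    · refine ⟨n + 1, by ring, a0, fun j hj => ?_⟩
      simp [top, Nat.lt_succ_iff.1 hj]
    · refine hLT _ _ ?_
      have := kb2 (Nat.lt_add_one n)
      omega
    · intro p hp
      simp only [Finset.mem_Ioc] at hp
      rw [ind_diff, if_neg (hLT _ _ hp.1), if_neg, sub_zero]
      rintro ⟨j, h1, h2, -⟩
      rw [hw j p hp.1 hp.2 h1, a1] at h2
      exact absurd h2 (by decide)
    · intro p hp hp'
      simp only [Finset.mem_Ioc] at hp
      rw [ind_diff, if_neg (hLT _ _ hp.1), if_neg, sub_zero]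
      rintro ⟨j, h1, -⟩
      rw [hw j p hp.1 hp.2 h1] at h1
      omega
    · intro h
      exfalso
      apply h
      have := kb2 (Nat.lt_add_one n)
      have := kb1 (le_refl (n + 1))
      rw [pw_succ] at this
      simp only [Finset.mem_Ioc]
      omega
  · intro e
    simp only [Finset.mem_insert, Finset.mem_singleton]
    constructor
    · rintro (rfl | rfl)
      · exact ⟨K_io _, fun _ _ => rfl⟩
      · refine ⟨K_io _, fun q hq => ?_⟩
        by_cases hq' : q = -b (n + 1)
        · rw [hq', io_neg, io_neg, a0, a1]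
          rfl
        · refine io_congr fun j hj => a2 j ?_
          rintro rfl
          rcases abs_cases q with h | h <;> omega
    · rintro ⟨h1, h2⟩
      obtain ⟨d', rfl⟩ := io_surj h1
      have h3 := h2 (-b (n + 1)) (by omega)
      rw [io_neg, io_neg, a0] at h3
      have h4 : d' (n + 1) = 0 ∨ d' (n + 1) = 1 := by
        generalize d' (n + 1) = v at *
        revert v
        decide
      rcases h4 with h4 | h4
      · left
        refine congrArg io (funext fun j => ?_)
        by_cases hj : j = n + 1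
        · rw [hj, h4, a0]
        · exact agree (abs_of_pos hb) h2 j hj
      · right
        refine congrArg io (funext fun j => ?_)
        by_cases hj : j = n + 1
        · rw [hj, h4, a1]
        · rw [a2 j hj]
          exact agree (abs_of_pos hb) h2 j hj

end Pool.Agent.H.MP_846a4c_an
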