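import Pool.Agent.H.MP_846a4c_an.E

set_option autoImplicit false

namespace Pool.Agent.H.MP_846a4c_an

open Set Classical Filter Topology

variable {k : ℕ} {P : Fin k → Set LG} {g : Fin k → LG} {R : ℤ}

theorem pw_le {n m : ℕ} (hn : 2 * R + 2 ≤ 2 ^ n) (h : n ≤ m) : 2 * R + 2 ≤ 2 ^ m :=
  hn.trans (pow_le_pow_right₀ (by norm_num) h)

theorem FR_congr {n : ℕ} {d d' : Dg} (h : ∀ j, n < j → d j = d' j) :
    FR P g R n d = FR P g R n d' := by
  unfold FR
  congr 2
  funext j
  simp only [top]
  split_ifs with h1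
  · rfl
  · exact h j (not_le.1 h1)

theorem step (H : Dec P g R) {n : ℕ} (hn : 2 * R + 2 ≤ 2 ^ n) {d : Dg} (hg : Good g (io d)) :
    FR P g R n d = if d (n + 1) = 1 then 1 - FR P g R (n + 1) d else FR P g R (n + 1) d := by
  have h0 : ∀ d : Dg, Good g (io d) → d (n + 1) = 0 → FR P g R n d = FR P g R (n + 1) d := by
    intro d hg hd
    rw [rel1 H hn hg, rel3L H hn hg hd, rel1 H (pw_le hn (Nat.le_succ n)) hg]
  have h3 : d (n + 1) = 0 ∨ d (n + 1) = 1 ∨ d (n + 1) = 2 := by omega
  rcases h3 with h | h | h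
  · rw [if_neg (by rw [h]; decide), h0 d hg h]
  · rw [if_pos h]
    have hg' : Good g (io (Function.update d (n + 1) 0)) :=
      hg.tail (n + 1) fun j hj => by simp [hj.ne']
    have h1 := rel2 H hn hg' (by simp)
    rw [Function.update_idem, ← h, Function.update_eq_self, h0 _ hg' (by simp),
      FR_congr (d' := d) (fun j hj => by simp [hj.ne'])] at h1
    omega
  · rw [if_neg (by rw [h]; decide), rel3R H hn hg h]

theorem flip (H : Dec P g R) {d : Dg} (hg : Good g (io d)) (N : ℕ) (hd : d (N + 1) = 0) (t : ℕ) :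
    ∀ n, n + t = N → 2 * R + 2 ≤ 2 ^ n →
      FR P g R n d + FR P g R n (Function.update d (N + 1) 1) = 1 := by
  induction t with
  | zero =>
    intro n h hn
    obtain rfl : n = N := by omega
    exact rel2 H hn hg hd
  | succ t ih =>
    intro n h hn
    have h1 := ih (n + 1) (by omega) (pw_le hn (Nat.le_succ n))
    have hg' : Good g (io (Function.update d (N + 1) 1)) :=
      hg.tail (N + 1) fun j hj => by simp [hj.ne']
    rw [step H hn hg, step H hn hg', Function.update_of_ne (show n + 1 ≠ N + 1 by omega)]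
    split_ifs <;> omega

theorem cyl {U : Set Dg} (hU : IsOpen U) {d : Dg} (hd : d ∈ U) :
    ∃ N, ∀ d' : Dg, (∀ j < N, d' j = d j) → d' ∈ U := by
  obtain ⟨I, u, h1, h2⟩ := isOpen_pi_iff.1 hU d hd
  obtain ⟨N, hN⟩ := I.bddAbove
  refine ⟨N + 1, fun d' h => h2 fun j hj => ?_⟩
  rw [h j (Nat.lt_succ_of_le (hN hj))]
  exact (h1 j hj).2

theorem good_res (g : Fin k → LG) : {d : Dg | Good g (io d)} ∈ residual Dg := by
  show ∀ᶠ d in residual Dg, Good g (io d)
  unfold Good
  refine eventually_countable_forall.2 fun i => eventually_countable_forall.2 fun p =>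
    eventually_countable_forall.2 fun s => ?_
  by_cases hs : s = 0
  · exact Eventually.of_forall fun d h => absurd hs h
  by_cases hf : (Function.support (cf (g i))).Finite
  · exact Eventually.of_forall fun d _ h => absurd hf h
  simp only [ne_eq, hs, hf, not_false_eq_true, forall_const]
  refine eventually_countable_forall.2 fun m => residual_of_dense_open ?_ ?_
  · show IsOpen {d : Dg | ∃ q, m < |q| ∧ ¬ Ok q (io d q + s * cf (g i) (q - p))}
    rw [Set.ofPred_exists]
    refine isOpen_iUnion fun q => ?_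
    exact (isOpen_discrete {v : ZMod 3 | m < |q| ∧ ¬ Ok q (v + s * cf (g i) (q - p))}).preimage
      ((continuous_apply q).comp cont_io)
  · rw [dense_iff_inter_open]
    rintro U hU ⟨d, hd⟩
    obtain ⟨N, hN⟩ := cyl hU hd
    have hM : ∃ q, max m (b N) < |q| ∧ cf (g i) (q - p) ≠ 0 := by
      by_contra hc
      push Not at hc
      apply hf
      refine (Set.finite_Icc (-max m (b N) - p) (max m (b N) - p)).subset fun q hq => ?_
      by_contra h1
      apply hq
      have := hc (q + p) (by
        simp only [mem_Icc, not_and_or, not_le] at h1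
        rcases abs_cases (q + p) with h | h <;> omega)
      simpa using this
    obtain ⟨q, hq, hc⟩ := hM
    have hq1 : m < |q| := lt_of_le_of_lt (le_max_left _ _) hq
    have hq2 : b N < |q| := lt_of_le_of_lt (le_max_right _ _) hq
    have ht : s * cf (g i) (q - p) ≠ 0 := by
      generalize cf (g i) (q - p) = t at *
      revert s t
      decide
    generalize hT : s * cf (g i) (q - p) = T at ht
    rcases cases3 q with ⟨j, rfl⟩ | ⟨j, rfl⟩ | hn
    · have hj : N < j := b_mono.lt_iff_lt.1 (by rwa [abs_of_pos (b_pos j)] at hq2)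
      refine ⟨Function.update d j (if T = 1 then 1 else 0), hN _ fun j' hj' => ?_, b j, hq1, ?_⟩
      · rw [Function.update_of_ne (by omega)]
      · rw [io_pos, hT, Function.update_self]
        refine fun h => absurd h.1 ?_
        clear hT h
        revert T
        decide
    · have hj : N < j := b_mono.lt_iff_lt.1 (by rwa [abs_neg, abs_of_pos (b_pos j)] at hq2)
      refine ⟨Function.update d j (if T = 1 then 1 else 2), hN _ fun j' hj' => ?_, -b j, hq1, ?_⟩
      · rw [Function.update_of_ne (by omega)]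
      · rw [io_neg, hT, Function.update_self]
        refine fun h => absurd h.1 ?_
        clear hT h
        revert T
        decide
    · refine ⟨d, hd, q, hq1, ?_⟩
      rw [io_non _ hn, hT, zero_add]
      exact fun h => ht (h.2 hn)

theorem meas_FR (hP : ∀ i, MeasurableSet (P i)) (n : ℕ) : Measurable (FR P g R n) := by
  have h1 : Continuous (top 2 n) := by
    refine continuous_pi fun j => ?_
    unfold top
    split_ifs
    · exact continuous_const
    · exact continuous_apply j
  have h2 : ∀ i p, Measurable fun d => ind (P i) (io (top 2 n d)) p := by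
    intro i p
    have h3 : Continuous fun d => mk (io (top 2 n d)) p := cont_mk (cont_io.comp h1) continuous_const
    exact Measurable.ite (h3.measurable (hP i)) measurable_const measurable_const
  unfold FR F
  refine Finset.measurable_sum _ fun i _ => ?_
  exact (Finset.measurable_sum _ fun p _ => h2 i p).sub (Finset.measurable_sum _ fun p _ => h2 i p)

theorem baire (f : Dg → ℤ) (hf : Measurable f) (G : Set Dg) (hG : G ∈ residual Dg) (n : ℕ)
    (h : ∀ d ∈ G, ∀ N, n ≤ N → d (N + 1) = 0 → f d + f (Function.update d (N + 1) 1) = 1) :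
    False := by
  have hm : MeasurableSet {d | 0 < f d} := measurableSet_lt measurable_const hf
  obtain ⟨U, hU, hUe⟩ := hm.baireMeasurableSet.residualEq_isOpen
  obtain ⟨N, d0, hc⟩ : ∃ (N : ℕ) (d0 : Dg), ∀ d d' : Dg, (∀ j < N, d j = d0 j) →
      (∀ j < N, d' j = d0 j) → (d ∈ U ↔ d' ∈ U) := by
    rcases U.eq_empty_or_nonempty with rfl | ⟨d0, h0⟩
    · exact ⟨0, fun _ => 0, fun _ _ _ _ => Iff.rfl⟩
    · obtain ⟨N, hN⟩ := cyl hU h0
      exact ⟨N, d0, fun d d' h1 h2 => ⟨fun _ => hN _ h2, fun _ => hN _ h1⟩⟩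
  set M := max n N + 1 with hM
  let σ : Dg ≃ₜ Dg := Homeomorph.piCongrRight fun j =>
    if j = M then (Equiv.swap (0 : Fin 3) 1).toHomeomorphOfDiscrete else Homeomorph.refl _
  have hZ : G ∩ {d | 0 < f d ↔ d ∈ U} ∈ residual Dg :=
    inter_mem hG (hUe.mono fun d hd => iff_of_eq hd)
  have hZ' : σ ⁻¹' (G ∩ {d | 0 < f d ↔ d ∈ U}) ∈ residual Dg := by
    rw [← Filter.mem_map, σ.residual_map_eq]
    exact hZ
  have hV : IsOpen {d : Dg | ∀ j ∈ Finset.range (M + 1), d j = Function.update d0 M 0 j} := by
    rw [Set.ofPred_forall]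
    simp only [Set.ofPred_forall]
    refine isOpen_biInter_finset fun j _ => ?_
    exact (isOpen_discrete {v : Fin 3 | v = Function.update d0 M 0 j}).preimage
      (continuous_apply (A := fun _ => Fin 3) j)
  obtain ⟨d, h1, h2, h3⟩ := (dense_of_mem_residual (inter_mem hZ hZ')).inter_open_nonempty _ hV
    ⟨Function.update d0 M 0, fun _ _ => rfl⟩
  have h4 : d M = 0 := by simpa using h1 M (by simp)
  have h5 : σ d = Function.update d M 1 := by
    funext j
    by_cases hj : j = M
    · subst hj
      simp only [σ, Homeomorph.piCongrRight_apply, if_true, h4, Function.update_self]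
      rfl
    · simp [σ, hj]
  have h6 := h d h2.1 (max n N) (le_max_left _ _) h4
  have h7 := h2.2
  have h8 := h3.2
  rw [h5] at h8
  have h9 : ∀ j < N, d j = d0 j := by
    intro j hj
    have := le_max_right n N
    rw [h1 j (by simp; omega), Function.update_of_ne (by omega)]
  have h10 := hc d (Function.update d M 1) h9 fun j hj => by
    have := le_max_right n N
    rw [Function.update_of_ne (by omega), h9 j hj]
  simp only [mem_ofPred_eq] at h7 h8
  rw [← h7, ← h8] at h10
  rw [← hM] at h6
  omega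

theorem not_one : ¬ ∃ (k : ℕ) (P : Fin k → Set LG) (g : Fin k → LG),
      (∀ i, MeasurableSet (P i)) ∧
      Pairwise (fun i j => Disjoint (P i) (P j)) ∧
      (⋃ i, P i) = A ∧
      Pairwise (fun i j =>
        Disjoint ((fun x : LG => g i * x) '' P i) ((fun x : LG => g j * x) '' P j)) ∧
      (⋃ i, (fun x : LG => g i * x) '' P i) = B := by
  rintro ⟨k, P, g, hP, hd, hA, hd', hB⟩
  have h1 : ∀ i, ∃ R : ℤ, |ps (g i)| ≤ R ∧
      ((Function.support (cf (g i))).Finite → ∀ q, R < |q| → cf (g i) q = 0) := by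
    intro i
    by_cases hf : (Function.support (cf (g i))).Finite
    · obtain ⟨R, hR⟩ := (hf.image fun q : ℤ => |q|).bddAbove
      refine ⟨max R |ps (g i)|, le_max_right _ _, fun _ q hq => ?_⟩
      by_contra h
      have := hR ⟨q, h, rfl⟩
      have := le_max_left R |ps (g i)|
      simp only at *
      omega
    · exact ⟨_, le_rfl, fun h => absurd h hf⟩
  choose R hR1 hR2 using h1
  obtain ⟨R0, hR0⟩ := (Set.finite_range R).bddAbove
  have hR3 : ∀ i, R i ≤ max R0 0 := fun i => (hR0 ⟨i, rfl⟩).trans (le_max_left _ _)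
  have H : Dec P g (max R0 0) := ⟨hd, hA, hd', hB, fun i => (hR1 i).trans (hR3 i), le_max_right _ _,
    fun i hf q hq => hR2 i hf q (lt_of_le_of_lt (hR3 i) hq)⟩
  obtain ⟨n, hn⟩ := pow_unbounded_of_one_lt (2 * max R0 0 + 2 : ℤ) (by norm_num : (1 : ℤ) < 2)
  refine baire (FR P g (max R0 0) n) (meas_FR hP n) _ (good_res g) n fun d hd N hN h0 => ?_
  exact flip H hd N h0 (N - n) n (by omega) hn.le

end Pool.Agent.H.MP_846a4c_an
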